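import Pool.Agent.Helper10.SP.GoalsC

/-! # EXT5: the extension theorem (chains of bounded pairs) -/

open Complex Metric Set Filter Topology MeasureTheory
open scoped ContDiff ComplexConjugate ComplexOrder Manifold

namespace Pool.Agent.Helper38.SP

open Pool.Agent.Helper10.SP
open Pool.Agent.Helper95.Lin Pool.Agent.Helper16.Abund Pool.Agent.Helper92.Orb

universe u v

variable {b N : ℕ} {G : Type u} [Group G]

/-- The abstract properties of the pseudogroup used in the chain argument. -/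
structure Ch (c : Fin N → Cn b) (Q : G → Set (Cn b) → Tri b → Prop) (C₁ C₂ δ₁ : ℝ) : Prop where
  mono : ∀ γ U U' t, Q γ U t → IsOpen U' → U' ⊆ U → Q γ U' t
  ne : ∀ γ U t, Q γ U t → ∀ z ∈ U, t.a z ≠ 0
  lip : ∀ γ V t, Q γ V t → Convex ℝ V → V ⊆ Bd c 4 → MapsTo t.g V (Bd c 4) →
    (∀ z ∈ V, ‖t.a z‖ ≤ C₁ ∧ 1 ≤ C₁ * ‖t.a z‖) ∧
    ∀ x ∈ V, ∀ y ∈ V, ‖t.g x - t.g y‖ ≤ C₁ * ‖x - y‖
  one : ∀ U, IsOpen U → U ⊆ Bd c 5 → Q 1 U Tri.one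
  comp : ∀ γ γ' U U' U'' t s, Q γ U t → Q γ' U' s → IsOpen U'' → U'' ⊆ U' → MapsTo s.g U'' U →
    Q (γ * γ') U'' (t.comp s)
  uniq : ∀ (γ : G) (z₀ : Cn b) (r : ℝ) t s, Q γ (ball z₀ r) t → Q γ (ball z₀ r) s →
    ∀ z ∈ ball z₀ r, ∀ w : ℂ, t.g z = s.g z →
    t.a z * w + t.β z = s.a z * w + s.β z → t.EqOn s (ball z₀ r)
  bp : ∀ γ γ' z₀ U U' T s w, Q γ U T → z₀ ∈ U → Q γ' U' s → z₀ ∈ U' → T.g z₀ ∈ Bd c 3 →
    s.g z₀ ∈ Bd c 3 → ‖T.a z₀ * w + T.β z₀‖ ≤ C₁ + 1 → ‖s.a z₀ * w + s.β z₀‖ ≤ C₁ + 1 →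
    ∃ r, Q (γ' * γ⁻¹) (ball (T.g z₀) δ₁) r ∧ MapsTo r.g (ball (T.g z₀) δ₁) (Bd c 4) ∧
      (∀ z ∈ ball (T.g z₀) δ₁, ‖r.β z‖ ≤ C₂) ∧ r.g (T.g z₀) = s.g z₀ ∧
      r.a (T.g z₀) * (T.a z₀ * w + T.β z₀) + r.β (T.g z₀) = s.a z₀ * w + s.β z₀
  cov : ∀ z₀ ∈ Bd c 3, ∀ w : ℂ, ∃ γ, ∃ ρ > 0, ∃ s, Q γ (ball z₀ ρ) s ∧ s.g z₀ ∈ Bd c 1 ∧
    ‖s.a z₀ * w + s.β z₀‖ < 1

theorem bd_mono (c : Fin N → Cn b) {r s : ℝ} (h : r ≤ s) : Bd c r ⊆ Bd c s := by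
  intro x hx
  simp only [Bd, mem_iUnion] at hx ⊢
  obtain ⟨i, hi⟩ := hx
  exact ⟨i, ball_subset_ball h hi⟩

theorem ball_bd (c : Fin N → Cn b) {r s t : ℝ} {z : Cn b} (hz : z ∈ Bd c r) (h : r + s ≤ t) :
    ball z s ⊆ Bd c t := by
  intro x hx
  simp only [Bd, mem_iUnion, mem_ball] at hz hx ⊢
  obtain ⟨i, hi⟩ := hz
  exact ⟨i, by linarith [dist_triangle x z (c i)]⟩

/-- One step of the chain. -/
theorem step {c : Fin N → Cn b} {Q : G → Set (Cn b) → Tri b → Prop} {C₁ C₂ δ₁ : ℝ}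
    (H : Ch c Q C₁ C₂ δ₁) (hC₁ : 1 ≤ C₁) (hC₂ : 0 ≤ C₂) {δ : ℝ} (hδ : 0 < δ) (hδ1 : δ ≤ 1)
    (hδδ : C₁ * δ ≤ δ₁) {z₀ : Cn b} (hz₀ : z₀ ∈ Bd c 3) {γ γ' : G} {T s : Tri b} {ρ : ℝ}
    (hρ : 0 < ρ) (hT : Q γ (ball z₀ δ) T) (hT4 : MapsTo T.g (ball z₀ δ) (Bd c 4))
    (hT3 : T.g z₀ ∈ Bd c 3) (hs : Q γ' (ball z₀ ρ) s) (hs3 : s.g z₀ ∈ Bd c 3) {w : ℂ}
    (hTw : ‖T.a z₀ * w + T.β z₀‖ ≤ C₁ + 1) (hsw : ‖s.a z₀ * w + s.β z₀‖ ≤ C₁ + 1) :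
    ∃ S : Tri b, Q γ' (ball z₀ δ) S ∧ MapsTo S.g (ball z₀ δ) (Bd c 4) ∧
      S.EqOn s (ball z₀ (min δ ρ)) ∧ ∀ x ∈ ball z₀ δ, ‖S.q x‖ ≤ ‖T.q x‖ + C₁ * C₂ := by
  have hz₀δ : z₀ ∈ ball z₀ δ := mem_ball_self hδ
  have hz₀ρ : z₀ ∈ ball z₀ ρ := mem_ball_self hρ
  have hb4 : ball z₀ δ ⊆ Bd c 4 := ball_bd c hz₀ (by linarith)
  obtain ⟨hTa, hTl⟩ := H.lip γ _ T hT (convex_ball _ _) hb4 hT4
  obtain ⟨r, hr, hr4, hrβ, hrg, hra⟩ :=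
    H.bp γ γ' z₀ _ _ T s w hT hz₀δ hs hz₀ρ hT3 hs3 hTw hsw
  have hmaps : MapsTo T.g (ball z₀ δ) (ball (T.g z₀) δ₁) := by
    intro x hx
    rw [mem_ball, dist_eq_norm]
    have h1 := hTl x hx z₀ hz₀δ
    have h2 : ‖x - z₀‖ < δ := by simpa [dist_eq_norm] using hx
    nlinarith [mul_lt_mul_of_pos_left h2 (by linarith : (0 : ℝ) < C₁)]
  have hS : Q γ' (ball z₀ δ) (r.comp T) := by
    have := H.comp _ _ _ _ _ _ _ hr hT isOpen_ball subset_rfl hmaps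
    simpa using this
  have hS4 : MapsTo (r.comp T).g (ball z₀ δ) (Bd c 4) := fun x hx => hr4 (hmaps hx)
  obtain ⟨hSa, -⟩ := H.lip γ' _ _ hS (convex_ball _ _) hb4 hS4
  refine ⟨r.comp T, hS, hS4, ?_, ?_⟩
  · have hm : 0 < min δ ρ := lt_min hδ hρ
    refine H.uniq γ' z₀ (min δ ρ) _ _
      (H.mono _ _ _ _ hS isOpen_ball (ball_subset_ball (min_le_left _ _)))
      (H.mono _ _ _ _ hs isOpen_ball (ball_subset_ball (min_le_right _ _)))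
      z₀ (mem_ball_self hm) w ?_ ?_
    · simpa [Tri.comp] using hrg
    · rw [← hra]
      simp only [Tri.comp]
      ring
  · intro x hx
    obtain ⟨h1, h2⟩ := hSa x hx
    obtain ⟨h3, h4⟩ := hTa x hx
    have hC : (0 : ℝ) < C₁ := by linarith
    have hSa0 : (r.comp T).a x ≠ 0 := by
      intro h
      rw [h, norm_zero, mul_zero] at h2
      linarith
    have hTa0 : T.a x ≠ 0 := by
      intro h
      rw [h, norm_zero, mul_zero] at h4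
      linarith
    have hra0 : r.a (T.g x) ≠ 0 := by
      intro h
      apply hSa0
      simp [Tri.comp, h]
    have hq : (r.comp T).q x = T.q x + r.β (T.g x) / (r.comp T).a x := by
      simp only [Tri.q, Tri.comp]
      field_simp
    rw [hq]
    refine (norm_add_le _ _).trans ?_
    gcongr
    rw [norm_div]
    have h5 : ‖r.β (T.g x)‖ ≤ C₂ := hrβ _ (hmaps hx)
    have h6 : 0 < ‖(r.comp T).a x‖ := norm_pos_iff.mpr hSa0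
    rw [div_le_iff₀ h6]
    calc ‖r.β (T.g x)‖ ≤ C₂ := h5
      _ = C₂ * 1 := by ring
      _ ≤ C₂ * (C₁ * ‖(r.comp T).a x‖) := by gcongr
      _ = C₁ * C₂ * ‖(r.comp T).a x‖ := by ring

/-- The chain. -/
theorem chain {c : Fin N → Cn b} {Q : G → Set (Cn b) → Tri b → Prop} {C₁ C₂ δ₁ : ℝ}
    (H : Ch c Q C₁ C₂ δ₁) (hC₁ : 1 ≤ C₁) (hC₂ : 0 ≤ C₂) {δ : ℝ} (hδ : 0 < δ) (hδ1 : δ ≤ 1)
    (hδδ : C₁ * δ ≤ δ₁) {z₀ : Cn b} (hz₀ : z₀ ∈ Bd c 3) (k : ℕ) :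
    ∀ w : ℂ, ‖w‖ ≤ k → ∃ (γ : G) (S : Tri b), Q γ (ball z₀ δ) S ∧
      MapsTo S.g (ball z₀ δ) (Bd c 4) ∧ S.g z₀ ∈ Bd c 1 ∧ ‖S.a z₀ * w + S.β z₀‖ < 1 ∧
      ∀ x ∈ ball z₀ δ, ‖S.q x‖ ≤ (k + 1) * (C₁ * C₂) := by
  have hz₀δ : z₀ ∈ ball z₀ δ := mem_ball_self hδ
  have hb4 : ball z₀ δ ⊆ Bd c 4 := ball_bd c hz₀ (by linarith)
  induction k with
  | zero =>
    intro w hw
    have hw0 : w = 0 := by
      rw [Nat.cast_zero] at hw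
      exact norm_le_zero_iff.mp hw
    subst hw0
    obtain ⟨γ, ρ, hρ, s, hs, hs1, hsw⟩ := H.cov z₀ hz₀ 0
    have h1 : Q 1 (ball z₀ δ) Tri.one :=
      H.one _ isOpen_ball (hb4.trans (bd_mono c (by norm_num)))
    obtain ⟨S, hS, hS4, hSe, hSq⟩ := step H hC₁ hC₂ hδ hδ1 hδδ hz₀ hρ h1
      (fun x hx => by simpa [Tri.one] using hb4 hx) (by simpa [Tri.one] using hz₀) hs
      (bd_mono c (by norm_num) hs1) (w := 0) (by simp [Tri.one]; linarith) (by linarith)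
    obtain ⟨e1, e2, e3⟩ := hSe z₀ (mem_ball_self (lt_min hδ hρ))
    refine ⟨γ, S, hS, hS4, e1 ▸ hs1, by rw [e2, e3]; exact hsw, fun x hx => ?_⟩
    have := hSq x hx
    simpa [Tri.q, Tri.one] using this
  | succ k ih =>
    intro w hw
    have hk : (0 : ℝ) < (k : ℝ) + 1 := by positivity
    set w' : ℂ := ((k / (k + 1) : ℝ) : ℂ) * w with hw'
    have h1 : ‖w'‖ ≤ k := by
      rw [hw', norm_mul, Complex.norm_real, Real.norm_of_nonneg (by positivity)]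
      push_cast at hw
      calc (k : ℝ) / (k + 1) * ‖w‖ ≤ (k : ℝ) / (k + 1) * (k + 1) := by gcongr
        _ = k := by field_simp
    have h2 : ‖w - w'‖ ≤ 1 := by
      have : w - w' = ((1 / (k + 1) : ℝ) : ℂ) * w := by
        rw [hw']
        have hk' : ((k : ℂ) + 1) ≠ 0 := by exact_mod_cast hk.ne'
        push_cast
        field_simp
        ring
      rw [this, norm_mul, Complex.norm_real, Real.norm_of_nonneg (by positivity)]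
      push_cast at hw
      calc 1 / ((k : ℝ) + 1) * ‖w‖ ≤ 1 / ((k : ℝ) + 1) * (k + 1) := by gcongr
        _ = 1 := by field_simp
    obtain ⟨γ, T, hT, hT4, hT1, hTw, hTq⟩ := ih w' h1
    obtain ⟨hTa, -⟩ := H.lip γ _ T hT (convex_ball _ _) hb4 hT4
    obtain ⟨γ', ρ, hρ, s, hs, hs1, hsw⟩ := H.cov z₀ hz₀ w
    have h3 : ‖T.a z₀ * w + T.β z₀‖ ≤ C₁ + 1 := by
      have e : T.a z₀ * w + T.β z₀ = T.a z₀ * (w - w') + (T.a z₀ * w' + T.β z₀) := by ring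
      rw [e]
      refine (norm_add_le _ _).trans ?_
      rw [norm_mul]
      have := (hTa z₀ hz₀δ).1
      nlinarith [norm_nonneg (T.a z₀), norm_nonneg (w - w')]
    obtain ⟨S, hS, hS4, hSe, hSq⟩ := step H hC₁ hC₂ hδ hδ1 hδδ hz₀ hρ hT hT4
      (bd_mono c (by norm_num) hT1) hs (bd_mono c (by norm_num) hs1) h3 (by linarith)
    obtain ⟨e1, e2, e3⟩ := hSe z₀ (mem_ball_self (lt_min hδ hρ))
    refine ⟨γ', S, hS, hS4, e1 ▸ hs1, by rw [e2, e3]; exact hsw, fun x hx => ?_⟩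
    have := hSq x hx
    have h4 := hTq x hx
    push_cast
    linarith

/-- The extension theorem from the abstract properties. -/
theorem ext_of_ch {c : Fin N → Cn b} {Q : G → Set (Cn b) → Tri b → Prop} {C₁ C₂ δ₁ : ℝ}
    (H : Ch c Q C₁ C₂ δ₁) (hC₁ : 1 ≤ C₁) (hC₂ : 0 ≤ C₂) (hδ₁ : 0 < δ₁) :
    ∃ δ C : ℝ, 0 < δ ∧ 1 ≤ C ∧ ∀ z₀ ∈ Bd c 3, ∀ γ U t, IsOpen U → Q γ U t → z₀ ∈ U →
      t.g z₀ ∈ Bd c 3 → ∃ t' U', Q γ (ball z₀ δ) t' ∧ IsOpen U' ∧ z₀ ∈ U' ∧ U' ⊆ U ∧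
      t'.EqOn t U' ∧ (∀ x ∈ ball z₀ δ, t'.g x ∈ Bd c 4 ∧ ‖t'.a x‖ ≤ C ∧ 1 ≤ C * ‖t'.a x‖ ∧
        ‖t'.β x‖ ≤ C * (1 + ‖t'.β z₀‖)) ∧
      ∀ x ∈ ball z₀ δ, ∀ y ∈ ball z₀ δ, ‖t'.g x - t'.g y‖ ≤ C * ‖x - y‖ := by
  have hC0 : (0 : ℝ) < C₁ := by linarith
  set δ := min (δ₁ / C₁) 1 with hδdef
  have hδ : 0 < δ := lt_min (div_pos hδ₁ hC0) one_pos
  have hδ1 : δ ≤ 1 := min_le_right _ _
  have hδδ : C₁ * δ ≤ δ₁ := by
    have : δ ≤ δ₁ / C₁ := min_le_left _ _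
    calc C₁ * δ ≤ C₁ * (δ₁ / C₁) := by gcongr
      _ = δ₁ := by field_simp
  set K := C₁ * C₂ with hK
  have hK0 : 0 ≤ K := by positivity
  refine ⟨δ, C₁ + 3 * C₁ * K + C₁ ^ 2 * K, hδ, ?_, ?_⟩
  · nlinarith [mul_nonneg hC0.le hK0, mul_nonneg (sq_nonneg C₁) hK0]
  have hCC : C₁ ≤ C₁ + 3 * C₁ * K + C₁ ^ 2 * K := by
    nlinarith [mul_nonneg hC0.le hK0, mul_nonneg (sq_nonneg C₁) hK0]
  intro z₀ hz₀ γ U t hU ht hz₀U htg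
  have hz₀δ : z₀ ∈ ball z₀ δ := mem_ball_self hδ
  have hb4 : ball z₀ δ ⊆ Bd c 4 := ball_bd c hz₀ (by linarith)
  obtain ⟨ρ, hρ, hρU⟩ := Metric.isOpen_iff.mp hU z₀ hz₀U
  have htρ := H.mono _ _ _ _ ht isOpen_ball hρU
  set w : ℂ := -t.β z₀ / t.a z₀ with hw
  set n : ℕ := ⌈‖w‖⌉₊ with hn
  obtain ⟨γ₁, T, hT, hT4, hT1, hTw, hTq⟩ := chain H hC₁ hC₂ hδ hδ1 hδδ hz₀ n w (Nat.le_ceil _)
  have key : t.a z₀ ≠ 0 → ∃ S : Tri b, Q γ (ball z₀ δ) S ∧ MapsTo S.g (ball z₀ δ) (Bd c 4) ∧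
      S.EqOn t (ball z₀ (min δ ρ)) ∧ ∀ x ∈ ball z₀ δ, ‖S.q x‖ ≤ ‖T.q x‖ + C₁ * C₂ := by
    intro ha
    refine step H hC₁ hC₂ hδ hδ1 hδδ hz₀ hρ hT hT4 (bd_mono c (by norm_num) hT1) htρ htg
      (w := w) (by linarith) ?_
    have : t.a z₀ * w + t.β z₀ = 0 := by
      rw [hw]
      field_simp
      ring
    rw [this, norm_zero]
    linarith
  have ha : t.a z₀ ≠ 0 := H.ne _ _ _ ht z₀ hz₀U
  obtain ⟨S, hS, hS4, hSe, hSq⟩ := key ha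
  obtain ⟨hSa, hSl⟩ := H.lip γ _ S hS (convex_ball _ _) hb4 hS4
  have hm : 0 < min δ ρ := lt_min hδ hρ
  refine ⟨S, ball z₀ (min δ ρ), hS, isOpen_ball, mem_ball_self hm,
    (ball_subset_ball (min_le_right _ _)).trans hρU, hSe, ?_, ?_⟩
  · intro x hx
    obtain ⟨h1, h2⟩ := hSa x hx
    refine ⟨hS4 hx, h1.trans hCC, ?_, ?_⟩
    · nlinarith [norm_nonneg (S.a x)]
    · obtain ⟨e1, e2, e3⟩ := hSe z₀ (mem_ball_self hm)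
      have hw' : ‖w‖ ≤ C₁ * ‖S.β z₀‖ := by
        rw [hw, norm_div, norm_neg, ← e2, ← e3]
        obtain ⟨h3, h4⟩ := hSa z₀ hz₀δ
        have h5 : 0 < ‖S.a z₀‖ := by
          rcases (norm_nonneg (S.a z₀)).eq_or_lt with h | h
          · rw [← h, mul_zero] at h4
            linarith
          · exact h
        rw [div_le_iff₀ h5]
        nlinarith [norm_nonneg (S.β z₀)]
      have hn' : (n : ℝ) ≤ ‖w‖ + 1 := (Nat.ceil_lt_add_one (norm_nonneg _)).le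
      have hq : ‖S.q x‖ ≤ (n + 2) * K := by
        have := hSq x hx
        have h3 := hTq x hx
        nlinarith
      have h6 : ‖S.β x‖ ≤ ‖S.q x‖ * ‖S.a x‖ := by
        have hSa0 : S.a x ≠ 0 := by
          intro h
          rw [h, norm_zero, mul_zero] at h2
          linarith
        rw [← norm_mul, Tri.q, div_mul_cancel₀ _ hSa0]
      have h7 : ‖S.q x‖ * ‖S.a x‖ ≤ ((n + 2) * K) * C₁ := by
        gcongr
      have h8 : ((n : ℝ) + 2) * K * C₁ ≤ ((C₁ * ‖S.β z₀‖ + 1) + 2) * K * C₁ := by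
        gcongr
        linarith
      calc ‖S.β x‖ ≤ ((C₁ * ‖S.β z₀‖ + 1) + 2) * K * C₁ := h6.trans (h7.trans h8)
        _ = C₁ ^ 2 * K * ‖S.β z₀‖ + 3 * C₁ * K := by ring
        _ ≤ (C₁ + 3 * C₁ * K + C₁ ^ 2 * K) * (1 + ‖S.β z₀‖) := by
            have := norm_nonneg (S.β z₀)
            have h9 : 0 ≤ C₁ * K := mul_nonneg hC0.le hK0
            have h10 : 0 ≤ C₁ ^ 2 * K := mul_nonneg (sq_nonneg C₁) hK0
            nlinarith [mul_nonneg h9 this, mul_nonneg h10 this, mul_nonneg hC0.le this]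
  · intro x hx y hy
    refine (hSl x hx y hy).trans ?_
    gcongr


theorem pmapG_mono {D : Set (Cn b)} {R : G → Cn (b + 1) → Cn (b + 1) → Prop} {γ : G}
    {U U' : Set (Cn b)} {t : Tri b} (h : PMapG D R γ U t) (hU' : IsOpen U') (hs : U' ⊆ U) :
    PMapG D R γ U' t := by
  obtain ⟨-, h1, ⟨h2, h3, h4⟩, h5, h6⟩ := h
  exact ⟨hU', hs.trans h1, ⟨h2.mono hs, h3.mono hs, h4.mono hs⟩, fun z hz => h5 z (hs hz),
    fun z hz => h6 z (hs hz)⟩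

theorem base_pt (z : Cn b) (w : ℂ) : base (pt z w) = z := by
  funext i
  simp [base, pt]

theorem lc_pt (z : Cn b) (w : ℂ) : lc (pt z w) = w := by
  simp [lc, pt]

theorem pt_inj {z z' : Cn b} {w w' : ℂ} (h : pt z w = pt z' w') : z = z' ∧ w = w' :=
  ⟨by rw [← base_pt z w, h, base_pt], by rw [← lc_pt z w, h, lc_pt]⟩

/-- EXT5. -/
theorem ext5 (hLOCP : S_LOCP.{u, v}) (hPAX : S_PAX.{u, v}) (hLIPP : S_LIPP)
    (hBP : S_BP.{u, v}) : S_EXT5.{u, v} := by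
  intro b N G M _ _ _ _ _ _ h v hd c E Φ hE
  obtain ⟨C₁, hC₁, hL⟩ := hLIPP c 5 4 Φ (by norm_num) hE.smooth hE.pos
  obtain ⟨δ₁, hδ₁, C₂, hbp⟩ := hBP hd c E Φ hE (C₁ + 1)
  obtain ⟨pax1, pax2, pax3, pax4, pax5⟩ := hPAX hd c 5 E Φ hE
  have H : Ch c (PMapG (Bd c 5) (RelE (G := G) c 5 E)) C₁ (max C₂ 0) δ₁ := by
    refine ⟨fun γ U U' t h hU hs => pmapG_mono h hU hs, fun γ U t h z hz => (h.2.2.2.1 z hz).2,
      ?_, pax2, fun γ γ' U U' U'' t s => pax3 γ γ' U U' U'' t s, pax5, ?_, ?_⟩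
    · intro γ V t ht hV hV4 hm
      exact hL V t ht.1 hV hV4 ht.2.2.1 hm (pax1 γ V t ht)
    · intro γ γ' z₀ U U' T s w hT hzU hs hzU' hT3 hs3 hTw hsw
      have h1 := hT.2.2.2.2 z₀ hzU w
      have h2 := hs.2.2.2.2 z₀ hzU' w
      have hrel : RelE c 5 E (γ' * γ⁻¹) (pt (T.g z₀) (T.a z₀ * w + T.β z₀))
          (pt (s.g z₀) (s.a z₀ * w + s.β z₀)) := by
        refine ⟨h1.2.1, h2.2.1, ?_⟩
        rw [← h1.2.2, mul_smul, inv_smul_smul]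
        exact h2.2.2
      obtain ⟨r, hr, hr4, hrβ, hry⟩ := hbp (γ' * γ⁻¹) _ _ hrel (by rw [base_pt]; exact hT3)
        (by rw [base_pt]; exact hs3) (by rw [lc_pt]; exact hTw) (by rw [lc_pt]; exact hsw)
      rw [base_pt] at hr hr4 hrβ hry
      rw [lc_pt] at hry
      obtain ⟨e1, e2⟩ := pt_inj hry
      exact ⟨r, hr, hr4, fun z hz => (hrβ z hz).trans (le_max_left _ _), e1.symm, e2.symm⟩
    · intro z₀ hz₀ w
      have hz5 : z₀ ∈ Bd c 5 := bd_mono c (by norm_num) hz₀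
      obtain ⟨γ, z, hz, w', hw', he⟩ := hE.cov (E (pt z₀ w))
      obtain ⟨ρ, hρ, t, ht, hty⟩ := hLOCP hd c 5 E Φ hE γ (pt z₀ w) (pt z w')
        ⟨by simpa [tubeS, base_pt] using hz5,
          by simpa [tubeS, base_pt] using bd_mono c (by norm_num) hz, he⟩
      rw [base_pt] at ht hty
      rw [lc_pt] at hty
      obtain ⟨e1, e2⟩ := pt_inj hty
      exact ⟨γ, ρ, hρ, t, ht, e1 ▸ hz, e2 ▸ hw'⟩
  obtain ⟨δ, C, hδ, hC, hext⟩ := ext_of_ch H hC₁ (le_max_right _ _) hδ₁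
  refine ⟨δ, C, hδ, hC, ?_⟩
  rintro z₀ hz₀ U t ⟨t1, t2, t3, t4, t5, t6, γ, t7⟩ hzU htg
  obtain ⟨t', U', h1, h2, h3, h4, h5, h6, h7⟩ := hext z₀ hz₀ γ U t t1
    ⟨t1, t2, ⟨t3, t4, t5⟩, t6, t7⟩ hzU htg
  exact ⟨t', U', ⟨h1.1, h1.2.1, h1.2.2.1.1, h1.2.2.1.2.1, h1.2.2.1.2.2, h1.2.2.2.1, γ,
    h1.2.2.2.2⟩, h2, h3, h4, h5, h6, h7⟩

end Pool.Agent.Helper38.SP
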