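import Pool.Agent.Helper10.SP.GoalsE

/-! # LTR: transformation of the limits -/

open Complex Metric Set Filter Topology MeasureTheory
open scoped ContDiff ComplexConjugate

namespace Pool.Agent.Helper38.SP

open Pool.Agent.Helper95.Lin Pool.Agent.Helper10.SP

theorem NrA.mono {b N : ℕ} {c : Fin N → Cn b} {P : Set (Cn b) → Tri b → Prop} {i : Fin N}
    {ρ ε ε' : ℝ} {t : Tri b} (h : NrA c P i ρ ε t) (hε : ε ≤ ε') : NrA c P i ρ ε' t :=
  ⟨h.1, fun z hz => ⟨(h.2 z hz).1.trans hε, (h.2 z hz).2.trans hε⟩⟩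

/-- `f n = n l + o(n)`. -/
def Good (f : ℕ → ℂ) (l : ℂ) : Prop := ∀ ε > 0, ∃ B : ℝ, ∀ n : ℕ, ‖f n - n * l‖ ≤ ε * n + B

theorem Good.tendsto {f : ℕ → ℂ} {l : ℂ} (h : Good f l) :
    Tendsto (fun n : ℕ => f n / n) atTop (𝓝 l) := by
  rw [Metric.tendsto_atTop]
  intro ε hε
  obtain ⟨B, hB⟩ := h (ε / 2) (by positivity)
  obtain ⟨n₀, hn₀⟩ := exists_nat_gt (2 * B / ε)
  refine ⟨n₀ + 1, fun n hn => ?_⟩
  have h1 : (n₀ : ℝ) + 1 ≤ n := by exact_mod_cast hn
  have h0 : (0 : ℝ) < n := by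
    have : (0 : ℝ) ≤ n₀ := Nat.cast_nonneg _
    linarith
  have hn0 : (n : ℂ) ≠ 0 := by
    have : (n : ℝ) ≠ 0 := h0.ne'
    exact_mod_cast this
  have h2 : f n / n - l = (f n - n * l) / n := by
    field_simp
  rw [dist_eq_norm, h2, norm_div, Complex.norm_natCast, div_lt_iff₀ h0]
  have h3 := hB n
  have h4 : 2 * B < ε * n := by
    rw [div_lt_iff₀ hε] at hn₀
    nlinarith
  linarith

theorem ltr (hR : S_RETN) (hC : S_CNJ) : S_LTR := by
  intro b N c R P Φ C hF Λ ε₀ K hε₀ hK hadd hsm _ hbd hlast i j U s hs x hxU hx hy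
  obtain ⟨e, he, heU, hei, hej, hcn⟩ := hC c R P Φ C hF i j U s hs x hxU hx hy
  obtain ⟨η, hη, hcn⟩ := hcn (min ε₀ (1 / 2)) (by positivity)
  have hsub : ball x (e / 3) ⊆ ball x e := ball_subset_ball (by linarith)
  refine ⟨e / 3, by positivity, hsub.trans heU, hej.mono_left hsub, fun w => ?_⟩
  obtain ⟨hUo, -, -, -, hsβ, hsa⟩ := hF.holo U s hs
  obtain ⟨B, hB⟩ := hR c R P Φ C hF i (min η (min ε₀ (e / 3))) (by positivity)
  choose t ht hq using fun n : ℕ => hB ((n : ℂ) * w)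
  choose T hT hE using fun n : ℕ => (hcn (t n) (NrA.mono (ht n) (min_le_left _ _))).2
  have hB0 : 0 ≤ B := (norm_nonneg _).trans (hq 0)
  -- elementary facts on `Λ`
  have hsub' : ∀ k w w', ∀ y ∈ ball (c k) 3, Λ k (w - w') y = Λ k w y - Λ k w' y := by
    intro k w w' y hy
    have h1 := hadd k (w - w') w' y hy
    rw [sub_add_cancel] at h1
    rw [h1, add_sub_cancel_right]
  have hnat : ∀ k (n : ℕ) w, ∀ y ∈ ball (c k) 3, Λ k ((n : ℂ) * w) y = n * Λ k w y := by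
    intro k n w y hy
    have h1 := hsm k (n : ℝ) w y hy
    rw [Complex.ofReal_natCast] at h1
    exact h1
  -- bound for `s.β`
  obtain ⟨M, hM⟩ : ∃ M : ℝ, ∀ z ∈ closedBall x (2 * e / 3), ‖s.β z‖ ≤ M := by
    refine (isCompact_closedBall x (2 * e / 3)).exists_bound_of_continuousOn
      (hsβ.continuousOn.mono fun z hz => heU ?_)
    rw [mem_closedBall] at hz
    rw [mem_ball]
    linarith
  have hM0 : 0 ≤ M := (norm_nonneg _).trans (hM x (mem_closedBall_self (by positivity)))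
  -- the limits for `t`
  have hG1 : ∀ z ∈ ball (c i) 3, Good (fun n => (t n).q z) (Λ i w z) := by
    intro z hz ε hε
    obtain ⟨B1, hB1⟩ := hlast i (ε / (‖w‖ + 1)) (by positivity)
    refine ⟨ε / (‖w‖ + 1) * B + B1 + K * B, fun n => ?_⟩
    have h1 := hB1 (t n) (NrA.mono (ht n) ((min_le_right _ _).trans (min_le_left _ _))) z hz
    have h2 := hq n
    have h3 : ‖(t n).q (c i)‖ ≤ n * ‖w‖ + B := by
      have h4 : ‖(t n).q (c i)‖ ≤ ‖(t n).q (c i) - n * w‖ + ‖(n : ℂ) * w‖ := by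
        simpa using norm_add_le ((t n).q (c i) - n * w) ((n : ℂ) * w)
      rw [norm_mul, Complex.norm_natCast] at h4
      linarith
    have h4 : ‖Λ i ((t n).q (c i)) z - n * Λ i w z‖ ≤ K * B := by
      rw [← hnat i n w z hz, ← hsub' i _ _ z hz]
      exact ((hbd i _ z hz).2).trans (by gcongr)
    have h5 : ‖(t n).q z - n * Λ i w z‖ ≤ ‖(t n).q z - Λ i ((t n).q (c i)) z‖ +
        ‖Λ i ((t n).q (c i)) z - n * Λ i w z‖ := by
      simpa using norm_add_le ((t n).q z - Λ i ((t n).q (c i)) z)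
        (Λ i ((t n).q (c i)) z - n * Λ i w z)
    have h6 : ε / (‖w‖ + 1) * ‖(t n).q (c i)‖ ≤ ε / (‖w‖ + 1) * (n * ‖w‖ + B) := by gcongr
    have h7 : ε / (‖w‖ + 1) * (n * ‖w‖) ≤ ε * n := by
      rw [div_mul_eq_mul_div, div_le_iff₀ (by positivity)]
      have : (0 : ℝ) ≤ n := Nat.cast_nonneg _
      nlinarith [norm_nonneg w, mul_nonneg hε.le this]
    change ‖(t n).q z - n * Λ i w z‖ ≤ _
    nlinarith
  -- the formula for `T`
  have hform : ∀ z ∈ ball x (e / 3), ∀ n, (T n).q (s.g z) = s.a z * (t n).q z +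
      (s.β ((t n).g z) / (T n).a (s.g z) - s.β z) := by
    intro z hz n
    have hz' := hsub hz
    obtain ⟨-, h1, h2⟩ := hE n z hz'
    have h3 : (T n).a (s.g z) ≠ 0 := ((hF.holo _ _ (hT n).1.1).2.2.2.2.2 (s.g z)
      (ball_subset_ball (by norm_num) (hej hz'))).2
    have h4 : (t n).a z ≠ 0 := ((hF.holo _ _ (ht n).1.1).2.2.2.2.2 z
      (ball_subset_ball (by norm_num) (hei hz'))).2
    change (T n).a (s.g z) * s.a z = s.a ((t n).g z) * (t n).a z at h1
    change (T n).a (s.g z) * s.β z + (T n).β (s.g z) =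
      s.a ((t n).g z) * (t n).β z + s.β ((t n).g z) at h2
    unfold Tri.q
    field_simp
    linear_combination (t n).a z * h2 - (t n).β z * h1
  have hG2 : ∀ z ∈ ball x (e / 3), Good (fun n => (T n).q (s.g z)) (s.a z * Λ i w z) := by
    intro z hz ε hε
    have hz' := hsub hz
    obtain ⟨B1, hB1⟩ := hG1 z (hei hz') (ε / (‖s.a z‖ + 1)) (by positivity)
    refine ⟨‖s.a z‖ * B1 + 3 * M, fun n => ?_⟩
    have h1 := hB1 n
    change ‖(t n).q z - n * Λ i w z‖ ≤ _ at h1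
    have h2 : ‖s.β ((t n).g z)‖ ≤ M := by
      apply hM
      have h3 := ((ht n).2 z (hei hz')).1
      have h4 := h3.trans ((min_le_right _ _).trans (min_le_right _ _))
      rw [mem_ball, dist_eq_norm] at hz
      rw [mem_closedBall, dist_eq_norm]
      have h5 : ‖(t n).g z - x‖ ≤ ‖(t n).g z - z‖ + ‖z - x‖ := by
        simpa using norm_add_le ((t n).g z - z) (z - x)
      linarith
    have h3 : ‖s.β z‖ ≤ M := hM z (by
      rw [mem_ball] at hz
      rw [mem_closedBall]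
      linarith)
    have h4 : 1 / 2 ≤ ‖(T n).a (s.g z)‖ := by
      have h5 := ((hT n).2 (s.g z) (hej hz')).2.trans (min_le_right _ _)
      have h6 : ‖(1 : ℂ)‖ ≤ ‖(T n).a (s.g z)‖ + ‖(T n).a (s.g z) - 1‖ := by
        have h7 := norm_sub_le ((T n).a (s.g z)) ((T n).a (s.g z) - 1)
        rwa [sub_sub_cancel] at h7
      rw [norm_one] at h6
      linarith
    have h5 : ‖s.β ((t n).g z) / (T n).a (s.g z)‖ ≤ 2 * M := by
      rw [norm_div, div_le_iff₀ (by linarith)]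
      nlinarith
    have h6 : ‖(T n).q (s.g z) - n * (s.a z * Λ i w z)‖ ≤ ‖s.a z‖ * ‖(t n).q z - n * Λ i w z‖ +
        (‖s.β ((t n).g z) / (T n).a (s.g z)‖ + ‖s.β z‖) := by
      have h7 : (T n).q (s.g z) - n * (s.a z * Λ i w z) =
          s.a z * ((t n).q z - n * Λ i w z) + (s.β ((t n).g z) / (T n).a (s.g z) - s.β z) := by
        rw [hform z hz n]
        ring
      rw [h7, ← norm_mul]
      exact (norm_add_le _ _).trans (by gcongr; exact norm_sub_le _ _)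
    have h7 : ‖s.a z‖ * (ε / (‖s.a z‖ + 1) * n) ≤ ε * n := by
      have h8 : ‖s.a z‖ * (ε / (‖s.a z‖ + 1)) ≤ ε := by
        rw [mul_div_assoc', div_le_iff₀ (by positivity)]
        nlinarith [norm_nonneg (s.a z)]
      rw [← mul_assoc]
      gcongr
    have h8 : ‖s.a z‖ * ‖(t n).q z - n * Λ i w z‖ ≤
        ‖s.a z‖ * (ε / (‖s.a z‖ + 1) * n + B1) := by gcongr
    change ‖(T n).q (s.g z) - n * (s.a z * Λ i w z)‖ ≤ _
    nlinarith
  -- the values at the centre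
  have hTN : ∀ n, NrA c P j 3 ε₀ (T n) := fun n => NrA.mono (hT n) (min_le_left _ _)
  have hxe : x ∈ ball x (e / 3) := mem_ball_self (by positivity)
  obtain ⟨M', hM'0, hM'⟩ : ∃ M' : ℝ, 0 ≤ M' ∧ ∀ n : ℕ, ‖(T n).q (c j)‖ ≤ M' * n + M' := by
    obtain ⟨B1, hB1⟩ := hlast j (1 / (2 * K)) (by positivity)
    obtain ⟨B2, hB2⟩ := hG2 x hxe 1 one_pos
    set l := s.a x * Λ i w x
    refine ⟨2 * K * (‖l‖ + 1 + |B2| + |B1|), by positivity, fun n => ?_⟩
    have hy3 : s.g x ∈ ball (c j) 3 := hej (hsub hxe)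
    have h1 := hB1 (T n) (hTN n) (s.g x) hy3
    have h2 := hB2 n
    change ‖(T n).q (s.g x) - n * l‖ ≤ _ at h2
    have h3 := (hbd j ((T n).q (c j)) (s.g x) hy3).1
    have h4 : ‖Λ j ((T n).q (c j)) (s.g x)‖ ≤ ‖(T n).q (s.g x) - n * l‖ + n * ‖l‖ +
        ‖(T n).q (s.g x) - Λ j ((T n).q (c j)) (s.g x)‖ := by
      have h5 : Λ j ((T n).q (c j)) (s.g x) = ((T n).q (s.g x) - n * l) + n * l -
        ((T n).q (s.g x) - Λ j ((T n).q (c j)) (s.g x)) := by ring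
      have h6 : ‖(n : ℂ) * l‖ = n * ‖l‖ := by rw [norm_mul, Complex.norm_natCast]
      calc ‖Λ j ((T n).q (c j)) (s.g x)‖ = ‖((T n).q (s.g x) - n * l) + n * l -
        ((T n).q (s.g x) - Λ j ((T n).q (c j)) (s.g x))‖ := by rw [← h5]
        _ ≤ ‖((T n).q (s.g x) - n * l) + n * l‖ +
          ‖(T n).q (s.g x) - Λ j ((T n).q (c j)) (s.g x)‖ := norm_sub_le _ _
        _ ≤ ‖(T n).q (s.g x) - n * l‖ + ‖(n : ℂ) * l‖ +
          ‖(T n).q (s.g x) - Λ j ((T n).q (c j)) (s.g x)‖ := by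
            gcongr
            exact norm_add_le _ _
        _ = _ := by rw [h6]
    have h5 : K * ‖Λ j ((T n).q (c j)) (s.g x)‖ ≤ K * (1 * n + B2 + n * ‖l‖ +
        (1 / (2 * K) * ‖(T n).q (c j)‖ + B1)) := by
      gcongr
      linarith
    have h6 : K * (1 * n + B2 + n * ‖l‖ + (1 / (2 * K) * ‖(T n).q (c j)‖ + B1)) =
        K * (n + B2 + n * ‖l‖ + B1) + ‖(T n).q (c j)‖ / 2 := by
      field_simp
      ring
    have h7 : ‖(T n).q (c j)‖ ≤ 2 * (K * (n + B2 + n * ‖l‖ + B1)) := by linarith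
    refine h7.trans ?_
    have hn0 : (0 : ℝ) ≤ n := Nat.cast_nonneg _
    have h8 : n + B2 + n * ‖l‖ + B1 ≤ (‖l‖ + 1 + |B2| + |B1|) * n + (‖l‖ + 1 + |B2| + |B1|) := by
      nlinarith [le_abs_self B1, le_abs_self B2, norm_nonneg l, abs_nonneg B1, abs_nonneg B2,
        mul_nonneg (abs_nonneg B1) hn0, mul_nonneg (abs_nonneg B2) hn0]
    calc 2 * (K * (n + B2 + n * ‖l‖ + B1))
        ≤ 2 * (K * ((‖l‖ + 1 + |B2| + |B1|) * n + (‖l‖ + 1 + |B2| + |B1|))) := by gcongr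
      _ = _ := by ring
  have hG3 : ∀ z ∈ ball x (e / 3), Good (fun n => Λ j ((T n).q (c j)) (s.g z))
      (s.a z * Λ i w z) := by
    intro z hz ε hε
    obtain ⟨B1, hB1⟩ := hlast j (ε / (2 * (M' + 1))) (by positivity)
    obtain ⟨B2, hB2⟩ := hG2 z hz (ε / 2) (by positivity)
    refine ⟨ε + B1 + B2, fun n => ?_⟩
    have h1 := hB1 (T n) (hTN n) (s.g z) (hej (hsub hz))
    have h2 := hB2 n
    have h3 : ‖Λ j ((T n).q (c j)) (s.g z) - n * (s.a z * Λ i w z)‖ ≤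
        ‖(T n).q (s.g z) - Λ j ((T n).q (c j)) (s.g z)‖ +
          ‖(T n).q (s.g z) - n * (s.a z * Λ i w z)‖ := by
      rw [norm_sub_rev ((T n).q (s.g z)) (Λ j ((T n).q (c j)) (s.g z))]
      simpa using norm_add_le (Λ j ((T n).q (c j)) (s.g z) - (T n).q (s.g z))
        ((T n).q (s.g z) - n * (s.a z * Λ i w z))
    have h4 : ε / (2 * (M' + 1)) * ‖(T n).q (c j)‖ ≤ ε / 2 * n + ε / 2 := by
      have h5 : ε / (2 * (M' + 1)) * ‖(T n).q (c j)‖ ≤
          ε / (2 * (M' + 1)) * ((M' + 1) * (n + 1)) := by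
        gcongr
        have := hM' n
        have hn0 : (0 : ℝ) ≤ n := Nat.cast_nonneg _
        nlinarith
      have h6 : ε / (2 * (M' + 1)) * ((M' + 1) * (n + 1)) = ε / 2 * n + ε / 2 := by
        field_simp
      linarith
    change ‖Λ j ((T n).q (c j)) (s.g z) - n * (s.a z * Λ i w z)‖ ≤ _
    change ‖(T n).q (s.g z) - n * (s.a z * Λ i w z)‖ ≤ _ at h2
    linarith
  -- a convergent subsequence of `v n / n`
  have hbdd : ∀ n : ℕ, (T n).q (c j) / n ∈ closedBall (0 : ℂ) (2 * M') := by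
    intro n
    rw [mem_closedBall_zero_iff, norm_div, Complex.norm_natCast]
    rcases Nat.eq_zero_or_pos n with h0 | h0
    · rw [h0, Nat.cast_zero, div_zero]
      positivity
    · have h1 : (1 : ℝ) ≤ n := by exact_mod_cast h0
      rw [div_le_iff₀ (by linarith)]
      have := hM' n
      nlinarith
  obtain ⟨w', -, φ, hφ, hlim⟩ := tendsto_subseq_of_bounded isBounded_closedBall hbdd
  refine ⟨w', fun z hz => ?_⟩
  have hz3 : s.g z ∈ ball (c j) 3 := hej (hsub hz)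
  have h1 := ((hG3 z hz).tendsto).comp hφ.tendsto_atTop
  have h2 : Tendsto (fun n => Λ j ((T (φ n)).q (c j) / (φ n : ℂ)) (s.g z)) atTop
      (𝓝 (Λ j w' (s.g z))) := by
    rw [tendsto_iff_norm_sub_tendsto_zero] at hlim ⊢
    have h3 := hlim.const_mul K
    rw [mul_zero] at h3
    refine squeeze_zero (fun n => norm_nonneg _) (fun n => ?_) h3
    rw [← hsub' j _ _ _ hz3]
    exact (hbd j _ _ hz3).2
  refine tendsto_nhds_unique (h1.congr fun n => ?_) h2
  have h3 := hsm j ((φ n : ℝ)⁻¹) ((T (φ n)).q (c j)) (s.g z) hz3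
  have h4 : (((φ n : ℝ)⁻¹ : ℝ) : ℂ) * (T (φ n)).q (c j) = (T (φ n)).q (c j) / (φ n : ℂ) := by
    push_cast
    rw [div_eq_inv_mul]
  rw [h4] at h3
  rw [h3]
  simp only [Function.comp]
  push_cast
  rw [div_eq_inv_mul]

end Pool.Agent.Helper38.SP
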