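import Pool.Agent.Helper45.SP.GoalsFG
import Pool.Agent.Helper95.Lin.Basics

/-! # CONJ: maps of the pseudogroup conjugate elements near the identity -/

open Complex Metric Set Filter Topology
open scoped ContDiff ComplexConjugate

namespace Pool.Agent.Helper38.SP

open Pool.Agent.Helper95.Lin Pool.Agent.Helper10.SP Pool.Agent.Helper45.SP

theorem conj_aux {b N : ℕ} {c : Fin N → Cn b} {R : ℝ} {P : Set (Cn b) → Tri b → Prop}
    {Φ : Cn b → ℝ} {C : ℝ} (hF : AFol c R P Φ C) (i j : Fin N) {U U' : Set (Cn b)} {t s : Tri b}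
    (ht : P U t) (hs : P U' s) {x : Cn b} (hxU : x ∈ U) (hx : x ∈ ball (c i) 2)
    (hy : t.g x ∈ ball (c j) 2) (hyU : t.g x ∈ U') (hsx : s.g (t.g x) = x)
    (hst : ∀ᶠ z in 𝓝 x, s.g (t.g z) = z) :
    ∃ η > 0, ∀ τ, Big c P i τ → Near (c i) (4 / 2) τ.g η → ∃ t', Big c P j t' ∧ ∃ e > 0,
      ∀ z ∈ ball x e, t'.g (t.g z) = t.g (τ.g z) := by
  obtain ⟨hUo, hUR, htg, -, -, -⟩ := hF.holo U t ht
  obtain ⟨hU'o, -, hsg, -, -, -⟩ := hF.holo U' s hs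
  have htc : ContinuousAt t.g x := (htg.differentiableAt (hUo.mem_nhds hxU)).continuousAt
  have h1 : U ∩ t.g ⁻¹' ball (c j) 2 ∈ 𝓝 x :=
    inter_mem (hUo.mem_nhds hxU) (htc.preimage_mem_nhds (isOpen_ball.mem_nhds hy))
  obtain ⟨δ, hδ, hδs⟩ := Metric.mem_nhds_iff.1 h1
  refine ⟨δ / 2, by positivity, fun τ hτ hn => ?_⟩
  obtain ⟨-, -, hτg, -, -, -⟩ := hF.holo _ τ hτ.1
  have hx4 : x ∈ ball (c i) 4 := ball_subset_ball (by norm_num) hx
  have hτx : τ.g x ∈ ball x δ := by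
    rw [mem_ball_iff_norm]
    have h2 := hn x (by norm_num; exact hx)
    linarith
  have hτU : τ.g x ∈ U := (hδs hτx).1
  have hτy : t.g (τ.g x) ∈ ball (c j) 2 := (hδs hτx).2
  -- `t ∘ τ`
  have hV1 : IsOpen (ball (c i) 4 ∩ τ.g ⁻¹' U) :=
    hτg.continuousOn.isOpen_inter_preimage isOpen_ball hUo
  have hP1 : P (ball (c i) 4 ∩ τ.g ⁻¹' U) (t.comp τ) :=
    hF.comp U (ball (c i) 4) _ t τ ht hτ.1 hV1 inter_subset_left fun z hz => hz.2
  -- `t ∘ τ ∘ s`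
  have hV2 : IsOpen (U' ∩ s.g ⁻¹' (ball (c i) 4 ∩ τ.g ⁻¹' U)) :=
    hsg.continuousOn.isOpen_inter_preimage hU'o hV1
  have hP2 : P (U' ∩ s.g ⁻¹' (ball (c i) 4 ∩ τ.g ⁻¹' U)) ((t.comp τ).comp s) :=
    hF.comp _ U' _ (t.comp τ) s hP1 hs hV2 inter_subset_left fun z hz => hz.2
  have hyV : t.g x ∈ U' ∩ s.g ⁻¹' (ball (c i) 4 ∩ τ.g ⁻¹' U) := by
    refine ⟨hyU, ?_⟩
    rw [mem_preimage, hsx]
    exact ⟨hx4, hτU⟩
  have hval : ((t.comp τ).comp s).g (t.g x) = t.g (τ.g x) := by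
    change t.g (τ.g (s.g (t.g x))) = _
    rw [hsx]
  have hB : t.g (τ.g x) ∈ Bd c 2 := mem_iUnion.2 ⟨j, hτy⟩
  obtain ⟨t', U3, hP3, hU3o, hyU3, hU3s, hE⟩ := hF.ext j (t.g x) hy _ _ hP2 hyV (by rw [hval]; exact hB)
  refine ⟨t', ⟨hP3, t.g x, hy, ?_⟩, ?_⟩
  · rw [(hE _ hyU3).1, hval]
    exact hB
  · have h3 : ∀ᶠ z in 𝓝 x, t.g z ∈ U3 := htc.eventually_mem (hU3o.mem_nhds hyU3)
    obtain ⟨e, he, hes⟩ := Metric.eventually_nhds_iff_ball.1 (h3.and hst)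
    refine ⟨e, he, fun z hz => ?_⟩
    obtain ⟨h4, h5⟩ := hes z hz
    rw [(hE _ h4).1]
    change t.g (τ.g (s.g (t.g z))) = _
    rw [h5]

theorem CONJ : S_CONJ := by
  intro b N c R P Φ C hF i j U t ht x hxU hx hy
  obtain ⟨s, U', U'', hs, hyU', hU''o, hxU'', hU''U, hmaps, hst⟩ := hF.inv U t ht x hxU
  obtain ⟨hUo, hUR, htg, -, -, -⟩ := hF.holo U t ht
  obtain ⟨hU'o, -, hsg, -, -, -⟩ := hF.holo U' s hs
  have htc : ContinuousAt t.g x := (htg.differentiableAt (hUo.mem_nhds hxU)).continuousAt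
  have hsc : ContinuousAt s.g (t.g x) := (hsg.differentiableAt (hU'o.mem_nhds hyU')).continuousAt
  have hst' : ∀ z ∈ U'', s.g (t.g z) = z := fun z hz => (hst z hz).1
  have hsx : s.g (t.g x) = x := hst' x hxU''
  have hst1 : ∀ᶠ z in 𝓝 x, s.g (t.g z) = z := by
    filter_upwards [hU''o.mem_nhds hxU''] with z hz using hst' z hz
  -- the other inverse
  have hts : ∀ᶠ w in 𝓝 (t.g x), t.g (s.g w) = w := by
    have hcd : ContDiffAt ℂ 1 t.g x :=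
      ((holo_contDiffOn hUo htg).contDiffAt (hUo.mem_nhds hxU)).of_le (by simp)
    have hstr : HasStrictFDerivAt t.g (fderiv ℂ t.g x) x := hcd.hasStrictFDerivAt one_ne_zero
    have hdet : (fderiv ℂ t.g x).det ≠ 0 := (hF.pot U t ht x hxU).1
    obtain ⟨f', hf'⟩ : ∃ f' : Cn b ≃L[ℂ] Cn b, (f' : Cn b →L[ℂ] Cn b) = fderiv ℂ t.g x :=
      ⟨(fderiv ℂ t.g x).toContinuousLinearEquivOfDetNeZero hdet, by ext x; simp⟩
    rw [← hf'] at hstr
    have hm := hstr.map_nhds_eq_of_equiv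
    rw [← hm, eventually_map]
    filter_upwards [hst1] with z hz
    rw [hz]
  -- the radii
  have hx4 : x ∈ ball (c i) 4 := ball_subset_ball (by norm_num) hx
  have hy4 : t.g x ∈ ball (c j) 4 := ball_subset_ball (by norm_num) hy
  obtain ⟨d, hd, hds⟩ := Metric.mem_nhds_iff.1 (inter_mem (inter_mem (hU''o.mem_nhds hxU'')
    (isOpen_ball.mem_nhds hx4)) (htc.preimage_mem_nhds (isOpen_ball.mem_nhds hy4)))
  have h1 : s.g ⁻¹' ball x d ∈ 𝓝 (t.g x) :=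
    hsc.preimage_mem_nhds (isOpen_ball.mem_nhds (by rw [hsx]; exact mem_ball_self hd))
  obtain ⟨d', hd', hds'⟩ := Metric.mem_nhds_iff.1 (inter_mem (inter_mem (inter_mem
    (hU'o.mem_nhds hyU') (isOpen_ball.mem_nhds hy4)) h1) hts)
  refine ⟨d, d', s.g, hd, hd', fun z hz => hU''U (hds hz).1.1, fun z hz => (hds hz).1.2,
    fun w hw => (hds' hw).1.1.2, fun z hz => (hds hz).2, ?_, fun w hw => (hds' hw).1.2,
    fun w hw => (hds' hw).2, hsx, ?_, ?_⟩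
  · exact hsg.mono fun w hw => (hds' hw).1.1.1
  · exact conj_aux hF i j ht hs hxU hx hy hyU' hsx hst1
  · have h2 : t.g (s.g (t.g x)) = t.g x := by rw [hsx]
    refine conj_aux hF j i hs ht hyU' hy (by rw [hsx]; exact hx) (by rw [hsx]; exact hxU) h2 hts

end Pool.Agent.Helper38.SP
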