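import Pool.Agent.Helper45.SP.GoalsG
import Pool.Agent.Helper95.Lin.Basics
import Pool.Agent.Helper19.Lin.IDT

/-! # ZTRANS: transport of the center -/

open Complex Metric Set Filter Topology
open scoped ContDiff ComplexConjugate

namespace Pool.Agent.Helper38.SP

open Pool.Agent.Helper95.Lin Pool.Agent.Helper10.SP Pool.Agent.Helper45.SP

/-- The bracket of related fields. -/
theorem brV_related {b : ℕ} {h V W V' W' : Cn b → Cn b} {z : Cn b} (hh : ContDiffAt ℂ 2 h z)
    (hV : DifferentiableAt ℂ V z) (hW : DifferentiableAt ℂ W z)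
    (hV' : DifferentiableAt ℂ V' (h z)) (hW' : DifferentiableAt ℂ W' (h z))
    (e1 : ∀ᶠ x in 𝓝 z, V' (h x) = fderiv ℂ h x (V x))
    (e2 : ∀ᶠ x in 𝓝 z, W' (h x) = fderiv ℂ h x (W x)) :
    brV V' W' (h z) = fderiv ℂ h z (brV V W z) := by
  have hsym : IsSymmSndFDerivAt ℂ h z := hh.isSymmSndFDerivAt (by simp)
  have hd : DifferentiableAt ℂ h z := hh.differentiableAt (by simp)
  have hdd : DifferentiableAt ℂ (fderiv ℂ h) z :=
    (hh.fderiv_right (m := 1) (by norm_num)).differentiableAt (by simp)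
  have key : ∀ {X X' : Cn b → Cn b}, DifferentiableAt ℂ X z → DifferentiableAt ℂ X' (h z) →
      (∀ᶠ x in 𝓝 z, X' (h x) = fderiv ℂ h x (X x)) → ∀ u, fderiv ℂ X' (h z) (fderiv ℂ h z u) =
        fderiv ℂ (fderiv ℂ h) z u (X z) + fderiv ℂ h z (fderiv ℂ X z u) := by
    intro X X' hX hX' e u
    have h1 : HasFDerivAt (fun x => X' (h x)) ((fderiv ℂ X' (h z)).comp (fderiv ℂ h z)) z :=
      hX'.hasFDerivAt.comp z hd.hasFDerivAt
    have h2 : HasFDerivAt (fun x => fderiv ℂ h x (X x))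
        ((fderiv ℂ h z).comp (fderiv ℂ X z) + (fderiv ℂ (fderiv ℂ h) z).flip (X z)) z :=
      hdd.hasFDerivAt.clm_apply hX.hasFDerivAt
    have h3 := h1.unique (h2.congr_of_eventuallyEq e)
    have h4 := congrArg (fun L : Cn b →L[ℂ] Cn b => L u) h3
    simp only [ContinuousLinearMap.comp_apply, ContinuousLinearMap.add_apply,
      ContinuousLinearMap.flip_apply] at h4
    rw [h4, add_comm]
  unfold brV
  rw [e1.self_of_nhds, e2.self_of_nhds, key hW hW' e2, key hV hV' e1, map_sub,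
    hsym.eq (V z) (W z)]
  abel

theorem ZTRANS (hLT : S_LTRANS) : S_ZTRANS := by
  intro b z₀ z₁ r r₁ A A' hA hA' x y d d' h k hd hd' hxb hyb hh hhm hk hkm hhk hc1 hc2 V hV
  obtain ⟨V', hV', hV'h⟩ := hLT hA hA' x y d d' h k hd hd' hxb hyb hh hhm hk hkm hhk hc1 V hV.1
  refine ⟨V', ⟨hV', fun W' hW' => ?_⟩, hV'h⟩
  have hy : y ∈ ball y d' := mem_ball_self hd'
  have hky : k y ∈ ball x d := hkm hy
  have hhky : h (k y) = y := hhk y hy
  -- the derivative of `k` is invertible
  have hcomp : ∀ w ∈ ball y d', (fderiv ℂ h (k w)).comp (fderiv ℂ k w) =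
      ContinuousLinearMap.id ℂ (Cn b) := by
    intro w hw
    have h1 : HasFDerivAt (h ∘ k) ((fderiv ℂ h (k w)).comp (fderiv ℂ k w)) w :=
      (hh.differentiableAt (isOpen_ball.mem_nhds (hkm hw))).hasFDerivAt.comp w
        (hk.differentiableAt (isOpen_ball.mem_nhds hw)).hasFDerivAt
    have h2 : HasFDerivAt (h ∘ k) (ContinuousLinearMap.id ℂ (Cn b)) w := by
      refine (hasFDerivAt_id w).congr_of_eventuallyEq ?_
      filter_upwards [isOpen_ball.mem_nhds hw] with v hv
      exact hhk v hv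
    exact h1.unique h2
  have hdet : (fderiv ℂ k y).det ≠ 0 := by
    intro h0
    have h1 := congrArg ContinuousLinearMap.det (hcomp y hy)
    have h2 : ((fderiv ℂ h (k y)).comp (fderiv ℂ k y)).det =
        (fderiv ℂ h (k y)).det * (fderiv ℂ k y).det := by
      simp only [ContinuousLinearMap.det, ContinuousLinearMap.toLinearMap_comp, LinearMap.det_comp]
    rw [h2, h0, mul_zero] at h1
    simp [ContinuousLinearMap.det] at h1
  have hkh : ∀ᶠ z in 𝓝 (k y), k (h z) = z := by
    have hcd : ContDiffAt ℂ 1 k y :=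
      ((holo_contDiffOn isOpen_ball hk).contDiffAt (isOpen_ball.mem_nhds hy)).of_le (by simp)
    have hstr : HasStrictFDerivAt k (fderiv ℂ k y) y := hcd.hasStrictFDerivAt one_ne_zero
    obtain ⟨f', hf'⟩ : ∃ f' : Cn b ≃L[ℂ] Cn b, (f' : Cn b →L[ℂ] Cn b) = fderiv ℂ k y :=
      ⟨(fderiv ℂ k y).toContinuousLinearEquivOfDetNeZero hdet, by ext x; simp⟩
    rw [← hf'] at hstr
    rw [← hstr.map_nhds_eq_of_equiv, eventually_map]
    filter_upwards [isOpen_ball.mem_nhds hy] with w hw
    rw [hhk w hw]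
  have hhc : ContinuousAt h (k y) :=
    (hh.differentiableAt (isOpen_ball.mem_nhds hky)).continuousAt
  have hhy' : ∀ᶠ z in 𝓝 (k y), h z ∈ ball y d' := by
    apply hhc.eventually_mem
    rw [hhky]
    exact isOpen_ball.mem_nhds hy
  obtain ⟨d'', hd'', hs⟩ := Metric.mem_nhds_iff.1
    (inter_mem (inter_mem (isOpen_ball.mem_nhds hky) hhy') hkh)
  have hsx : ball (k y) d'' ⊆ ball x d := fun z hz => (hs hz).1.1
  -- transport of `W'` back
  obtain ⟨W, hW, hWk⟩ := hLT hA' hA y (k y) d' d'' k h hd' hd'' hyb (hsx.trans hxb) hk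
    (fun w hw => hxb (hkm hw)) (hh.mono hsx) (fun z hz => (hs hz).1.2) (fun z hz => (hs hz).2)
    hc2 W' hW'
  have hW'h : ∀ z ∈ ball (k y) d'', W' (h z) = fderiv ℂ h z (W z) := by
    intro z hz
    have h1 : h z ∈ ball y d' := (hs hz).1.2
    have h2 : k (h z) = z := (hs hz).2
    have h3 := hWk (h z) h1
    rw [h2] at h3
    have h4 := congrArg (fun L : Cn b →L[ℂ] Cn b => L (W' (h z))) (hcomp (h z) h1)
    simp only [ContinuousLinearMap.comp_apply, h2, ContinuousLinearMap.id_apply] at h4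
    rw [h3, h4]
  have hbr : ∀ z ∈ ball (k y) d'', brV V' W' (h z) = 0 := by
    intro z hz
    have hz0 : z ∈ ball z₀ r := hxb (hsx hz)
    have hz1 : h z ∈ ball z₁ r₁ := hhm (hsx hz)
    have hn : ball (k y) d'' ∈ 𝓝 z := isOpen_ball.mem_nhds hz
    have hcd : ContDiffAt ℂ 2 h z := by
      exact_mod_cast (holo_contDiffOn_nat isOpen_ball 2 hh).contDiffAt
        (isOpen_ball.mem_nhds (hsx hz))
    rw [brV_related hcd (hV.1.1.differentiableAt (isOpen_ball.mem_nhds hz0))
      (hW.1.differentiableAt (isOpen_ball.mem_nhds hz0))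
      (hV'.1.differentiableAt (isOpen_ball.mem_nhds hz1))
      (hW'.1.differentiableAt (isOpen_ball.mem_nhds hz1))
      (by filter_upwards [hn] with v hv using hV'h v (hsx hv))
      (by filter_upwards [hn] with v hv using hW'h v hv), hV.2 W hW z hz0, map_zero]
  have hbd : DifferentiableOn ℂ (brV V' W') (ball z₁ r₁) := by
    unfold brV
    exact ((holo_fderiv isOpen_ball hW'.1).clm_apply hV'.1).sub
      ((holo_fderiv isOpen_ball hV'.1).clm_apply hW'.1)
  refine Pool.Agent.Helper19.Lin.idt (ball z₁ r₁) isOpen_ball (convex_ball z₁ r₁).isPreconnected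
    (brV V' W') hbd y (hyb hy) ?_
  have hkc : ContinuousAt k y := (hk.differentiableAt (isOpen_ball.mem_nhds hy)).continuousAt
  filter_upwards [hkc.eventually_mem (isOpen_ball.mem_nhds (mem_ball_self hd'')),
    isOpen_ball.mem_nhds hy] with w hw hw'
  have h1 := hbr (k w) hw
  rwa [hhk w hw'] at h1

end Pool.Agent.Helper38.SP
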